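import Pool.Agent.N272.DLR.Graph

/-! The graph is a weak cop win. -/

set_option autoImplicit false

namespace Pool.Agent.N272.DLR

open Classical in
/-- the move of the cop at the first vertex when he cannot catch the robber at the second one -/
noncomputable def mv : W → W → W
  | .c k, .t l N => if l = k then .p k 0 N else .c (k + 1)
  | .c k, _ => .c (k + 1)
  | .p k i j, .p l i' j' => if k = l ∧ i + j = i' + j' ∧ i < i' then .p k (i + 1) (j - 1) else .c k
  | .p k _ _, _ => .c k
  | .t k N, _ => .t k N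

open Classical in
/-- the strategy of the cop -/
noncomputable def copMove (c x : W) : W := if G.Adj c x then x else mv c x

theorem copMove_adj {c x : W} (h : G.Adj c x) : copMove c x = x := if_pos h

theorem copMove_not {c x : W} (h : ¬ G.Adj c x) : copMove c x = mv c x := if_neg h

theorem mv_step (c x : W) : Step G c (mv c x) := by
  rcases c with k | ⟨k, N⟩ | ⟨k, i, j⟩
  · rcases x with l | ⟨l, M⟩ | ⟨l, i', j'⟩
    · exact Or.inr ((adj_cc _ _).mpr (Or.inl rfl))
    · simp only [mv]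
      split_ifs with h
      · exact Or.inr ((adj_cp _ _ _ _).mpr (Or.inl rfl))
      · exact Or.inr ((adj_cc _ _).mpr (Or.inl rfl))
    · exact Or.inr ((adj_cc _ _).mpr (Or.inl rfl))
  · exact Or.inl rfl
  · rcases x with l | ⟨l, M⟩ | ⟨l, i', j'⟩
    · exact Or.inr ((adj_pc _ _ _ _).mpr (Or.inl rfl))
    · exact Or.inr ((adj_pc _ _ _ _).mpr (Or.inl rfl))
    · simp only [mv]
      split_ifs with h
      · refine Or.inr ((adj_pp _ _ _ _ _ _).mpr ⟨rfl, Or.inl ⟨rfl, by omega⟩⟩)
      · exact Or.inr ((adj_pc _ _ _ _).mpr (Or.inl rfl))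

theorem copMove_step (c x : W) : Step G c (copMove c x) := by
  by_cases h : G.Adj c x
  · rw [copMove_adj h]
    exact Or.inr h
  · rw [copMove_not h]
    exact mv_step c x

/-- the part of the graph beyond `c k` -/
def Beyond (k : ℕ) : W → Prop
  | .c l => k < l
  | .t l _ => k ≤ l
  | .p l _ _ => k ≤ l

theorem Beyond.mono {k l : ℕ} (h : k ≤ l) {x : W} (hx : Beyond l x) : Beyond k x := by
  rcases x with a | ⟨a, N⟩ | ⟨a, i, j⟩ <;> simp only [Beyond] at hx ⊢ <;> omega

theorem beyond_step {k : ℕ} {x x' : W} (h : Beyond k x) (hs : Step G x x') (h1 : x' ≠ .c k)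
    (h2 : ¬ G.Adj (.c k) x') : Beyond k x' := by
  rcases hs with rfl | hs
  · exact h
  rcases x with a | ⟨a, N⟩ | ⟨a, i, j⟩ <;> rcases x' with b | ⟨b, M⟩ | ⟨b, i', j'⟩ <;>
    simp only [Beyond, adj_cc, adj_cp, adj_pc, adj_tp, adj_pt, adj_pp, adj_ct, adj_tc, adj_tt,
      ne_eq, W.c.injEq] at h hs h1 h2 ⊢ <;> omega

theorem fromA {k : ℕ} {x : W} (h : Beyond k x) (h2 : ¬ G.Adj (.c k) x) :
    (∃ N, x = .t k N ∧ copMove (.c k) x = .p k 0 N) ∨
      (Beyond (k + 1) x ∧ copMove (.c k) x = .c (k + 1)) := by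
  rw [copMove_not h2]
  rcases x with a | ⟨a, N⟩ | ⟨a, i, j⟩
  · right
    refine ⟨?_, rfl⟩
    simp only [Beyond, adj_cc] at h h2 ⊢
    omega
  · simp only [mv]
    by_cases hk : a = k
    · subst hk
      left
      exact ⟨N, rfl, if_pos rfl⟩
    · right
      refine ⟨?_, if_neg hk⟩
      simp only [Beyond] at h ⊢
      omega
  · right
    refine ⟨?_, rfl⟩
    simp only [Beyond, adj_cp] at h h2 ⊢
    omega

theorem stepB {k s r : ℕ} {x x' : W}
    (h : (∃ i j, x = .p k i j ∧ i + j = s + r ∧ s < i) ∨ (s = 0 ∧ x = .t k (s + r)))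
    (hs : Step G x x') (h1 : x' ≠ .p k s r) (h2 : ¬ G.Adj (.p k s r) x') :
    (∃ r', r = r' + 1 ∧ copMove (.p k s r) x' = .p k (s + 1) r' ∧
      ∃ i j, x' = .p k i j ∧ i + j = s + 1 + r' ∧ s + 1 < i) ∨
      (copMove (.p k s r) x' = .c k ∧ (x' = .c (k + 1) ∨ x' = .c (k + 2))) := by
  rw [copMove_not h2]
  rcases x' with b | ⟨b, M⟩ | ⟨b, i', j'⟩
  · right
    refine ⟨rfl, ?_⟩
    rcases h with ⟨i, j, rfl, h3, h4⟩ | ⟨h3, rfl⟩
    · rcases hs with hs | hs
      · simp at hs
      · simp only [adj_pc, W.c.injEq] at hs h2 ⊢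
        omega
    · rcases hs with hs | hs
      · simp at hs
      · simp [adj_tc] at hs
  · exfalso
    rcases h with ⟨i, j, rfl, h3, h4⟩ | ⟨h3, rfl⟩
    · rcases hs with hs | hs
      · simp at hs
      · simp only [adj_pt] at hs h2
        omega
    · rcases hs with hs | hs
      · simp only [W.t.injEq] at hs
        simp only [adj_pt] at h2
        omega
      · simp [adj_tt] at hs
  · left
    have key : k = b ∧ i' + j' = s + r ∧ s + 1 < i' := by
      rcases h with ⟨i, j, rfl, h3, h4⟩ | ⟨h3, rfl⟩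
      · rcases hs with hs | hs
        · simp only [W.p.injEq, adj_pp, ne_eq] at hs h1 h2
          omega
        · simp only [W.p.injEq, adj_pp, ne_eq] at hs h1 h2
          omega
      · rcases hs with hs | hs
        · simp at hs
        · simp only [W.p.injEq, adj_pp, adj_tp, ne_eq] at hs h1 h2
          omega
    obtain ⟨rfl, h5, h6⟩ := key
    obtain ⟨r', rfl⟩ : ∃ r', r = r' + 1 := ⟨r - 1, by omega⟩
    refine ⟨r', rfl, ?_, i', j', rfl, by omega, h6⟩
    simp only [mv]
    rw [if_pos ⟨trivial, by omega, by omega⟩]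
    simp

theorem stepC {k : ℕ} {x x' : W} (h : x = .c (k + 1) ∨ x = .c (k + 2))
    (hs : Step G x x') (h1 : x' ≠ .c k) (h2 : ¬ G.Adj (.c k) x') :
    Beyond (k + 1) x' ∧ copMove (.c k) x' = .c (k + 1) := by
  have h3 : Beyond k x := by rcases h with rfl | rfl <;> simp [Beyond]
  rcases fromA (beyond_step h3 hs h1 h2) h2 with ⟨N, rfl, -⟩ | h4
  · exfalso
    rcases h with rfl | rfl <;> rcases hs with hs | hs <;> simp [adj_ct] at hs
  · exact h4

/-- the play of the cop -/
noncomputable def cseq (R : ℕ → W) : ℕ → W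
  | 0 => .c 0
  | n + 1 => copMove (cseq R n) (R n)

theorem cseq_congr (R R' : ℕ → W) (n : ℕ) (h : ∀ j < n, R j = R' j) : cseq R n = cseq R' n := by
  induction n with
  | zero => rfl
  | succ n ih =>
    rw [cseq, cseq, ih fun j hj => h j (by omega), h n (by omega)]

section

variable {R : ℕ → W} (hR : IsPlay G R) (hc : ¬ Caught (cseq R) R)

include hc in
theorem not_adj (n : ℕ) : ¬ G.Adj (cseq R n) (R n) := by
  intro h
  apply hc
  refine ⟨n, Or.inr ?_⟩
  rw [cseq, copMove_adj h]

include hc in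
theorem not_eq (n : ℕ) : R n ≠ cseq R n := by
  intro h
  exact hc ⟨n, Or.inl h.symm⟩

/-- the cop is at `c k`, and the robber is beyond it -/
def Good (R : ℕ → W) (k n : ℕ) : Prop := cseq R (n + 1) = .c k ∧ Beyond k (R n)

include hR hc in
theorem B_next (k r : ℕ) : ∀ s n : ℕ, cseq R (n + 1) = .p k s r →
    ((∃ i j, R n = .p k i j ∧ i + j = s + r ∧ s < i) ∨ (s = 0 ∧ R n = .t k (s + r))) →
    ∃ n', n < n' ∧ Good R (k + 1) n' ∧ ∀ j, n ≤ j → j ≤ n' → Beyond k (R j) := by
  induction r with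
  | zero =>
    intro s n h1 h2
    have hb : Beyond k (R n) := by
      rcases h2 with ⟨i, j, h, -, -⟩ | ⟨-, h⟩ <;> rw [h] <;> simp [Beyond]
    have e1 := not_eq hc (n + 1)
    have e2 := not_adj hc (n + 1)
    have e3 : cseq R (n + 1 + 1) = copMove (cseq R (n + 1)) (R (n + 1)) := rfl
    rw [h1] at e1 e2 e3
    rcases stepB h2 (hR n) e1 e2 with ⟨r', h3, -⟩ | ⟨h3, h4⟩
    · omega
    · rw [h3] at e3
      have e4 := not_eq hc (n + 2)
      have e5 := not_adj hc (n + 2)
      have e6 : cseq R (n + 2 + 1) = copMove (cseq R (n + 2)) (R (n + 2)) := rfl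
      rw [show cseq R (n + 2) = .c k from e3] at e4 e5 e6
      have h5 := stepC h4 (hR (n + 1)) e4 e5
      refine ⟨n + 2, by omega, ⟨e6.trans h5.2, h5.1⟩, fun j hj hj' => ?_⟩
      obtain rfl | rfl | rfl : j = n ∨ j = n + 1 ∨ j = n + 2 := by omega
      · exact hb
      · rcases h4 with h4 | h4 <;> rw [h4] <;> simp [Beyond]
      · exact h5.1.mono (by omega)
  | succ r ih =>
    intro s n h1 h2
    have hb : Beyond k (R n) := by
      rcases h2 with ⟨i, j, h, -, -⟩ | ⟨-, h⟩ <;> rw [h] <;> simp [Beyond]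
    have e1 := not_eq hc (n + 1)
    have e2 := not_adj hc (n + 1)
    have e3 : cseq R (n + 1 + 1) = copMove (cseq R (n + 1)) (R (n + 1)) := rfl
    rw [h1] at e1 e2 e3
    rcases stepB h2 (hR n) e1 e2 with ⟨r', h3, h4, h5⟩ | ⟨h3, h4⟩
    · obtain rfl : r' = r := by omega
      rw [h4] at e3
      obtain ⟨n', h6, h7, h8⟩ := ih (s + 1) (n + 1) e3 (Or.inl h5)
      refine ⟨n', by omega, h7, fun j hj hj' => ?_⟩
      by_cases hjn : j = n
      · subst hjn
        exact hb
      · exact h8 j (by omega) hj'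
    · rw [h3] at e3
      have e4 := not_eq hc (n + 2)
      have e5 := not_adj hc (n + 2)
      have e6 : cseq R (n + 2 + 1) = copMove (cseq R (n + 2)) (R (n + 2)) := rfl
      rw [show cseq R (n + 2) = .c k from e3] at e4 e5 e6
      have h5 := stepC h4 (hR (n + 1)) e4 e5
      refine ⟨n + 2, by omega, ⟨e6.trans h5.2, h5.1⟩, fun j hj hj' => ?_⟩
      obtain rfl | rfl | rfl : j = n ∨ j = n + 1 ∨ j = n + 2 := by omega
      · exact hb
      · rcases h4 with h4 | h4 <;> rw [h4] <;> simp [Beyond]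
      · exact h5.1.mono (by omega)

include hR hc in
theorem good_next {k n : ℕ} (h : Good R k n) :
    ∃ n', n < n' ∧ Good R (k + 1) n' ∧ ∀ j, n ≤ j → j ≤ n' → Beyond k (R j) := by
  have e1 := not_eq hc (n + 1)
  have e2 := not_adj hc (n + 1)
  have e3 : cseq R (n + 1 + 1) = copMove (cseq R (n + 1)) (R (n + 1)) := rfl
  rw [h.1] at e1 e2 e3
  have h1 := beyond_step h.2 (hR n) e1 e2
  rcases fromA h1 e2 with ⟨N, h3, h4⟩ | ⟨h3, h4⟩
  · rw [h4] at e3
    obtain ⟨n', h6, h7, h8⟩ := B_next hR hc k N 0 (n + 1) e3 (Or.inr ⟨rfl, by simpa using h3⟩)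
    refine ⟨n', by omega, h7, fun j hj hj' => ?_⟩
    by_cases hjn : j = n
    · subst hjn
      exact h.2
    · exact h8 j (by omega) hj'
  · refine ⟨n + 1, by omega, ⟨e3.trans h4, h3⟩, fun j hj hj' => ?_⟩
    obtain rfl | rfl : j = n ∨ j = n + 1 := by omega
    · exact h.2
    · exact h1

include hR hc in
theorem good_exists (k : ℕ) : ∃ n, Good R (k + 1) n := by
  induction k with
  | zero =>
    have e1 := not_eq hc 0
    have e2 := not_adj hc 0
    have e3 : cseq R (0 + 1) = copMove (cseq R 0) (R 0) := rfl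
    have e0 : cseq R 0 = .c 0 := rfl
    rw [e0] at e1 e2 e3
    have h1 : Beyond 0 (R 0) := by
      rcases hx : R 0 with a | ⟨a, N⟩ | ⟨a, i, j⟩
      · rw [hx] at e1
        simp only [ne_eq, W.c.injEq] at e1
        simp only [Beyond]
        omega
      · simp [Beyond]
      · simp [Beyond]
    rcases fromA h1 e2 with ⟨N, h3, h4⟩ | ⟨h3, h4⟩
    · rw [h4] at e3
      obtain ⟨n', -, h7, -⟩ := B_next hR hc 0 N 0 0 e3 (Or.inr ⟨rfl, by simpa using h3⟩)
      exact ⟨n', h7⟩
    · exact ⟨0, e3.trans h4, h3⟩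
  | succ k ih =>
    obtain ⟨n, hn⟩ := ih
    obtain ⟨n', -, h, -⟩ := good_next hR hc hn
    exact ⟨n', h⟩

include hR hc in
theorem good_forever (d : ℕ) : ∀ k n : ℕ, Good R k n → Beyond k (R (n + d)) := by
  induction d using Nat.strong_induction_on with
  | _ d ih =>
    intro k n h
    obtain ⟨n', h1, h2, h3⟩ := good_next hR hc h
    by_cases hd : n + d ≤ n'
    · exact h3 _ (by omega) hd
    · have := ih (n + d - n') (by omega) (k + 1) n' h2
      rw [show n' + (n + d - n') = n + d by omega] at this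
      exact this.mono (by omega)

include hR hc in
theorem finite_visits (x : W) : {n | R n = x}.Finite := by
  obtain ⟨k, hk⟩ : ∃ k, ¬ Beyond (k + 1) x := by
    rcases x with a | ⟨a, N⟩ | ⟨a, i, j⟩
    · exact ⟨a, by simp [Beyond]⟩
    · exact ⟨a, by simp [Beyond]⟩
    · exact ⟨a, by simp [Beyond]⟩
  obtain ⟨n, hn⟩ := good_exists hR hc k
  refine (Set.finite_lt_nat n).subset ?_
  intro m hm
  by_contra h
  have hm : R m = x := hm
  have h : n ≤ m := not_lt.mp h
  have := good_forever hR hc (m - n) (k + 1) n hn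
  rw [show n + (m - n) = m by omega, hm] at this
  exact hk this

end

/-- extension of a finite history -/
def extend {n : ℕ} (h : Fin n → W) : ℕ → W := fun j => if hj : j < n then h ⟨j, hj⟩ else .c 0

theorem weakCopWin : WeakCopWin G := by
  refine ⟨.c 0, fun n h => cseq (extend h) (n + 1), fun R hR => ?_⟩
  have e : copPlay (.c 0) (fun n h => cseq (extend h) (n + 1)) R = cseq R := by
    funext n
    rcases n with _ | n
    · rfl
    · change cseq (extend fun i : Fin (n + 1) => R i) (n + 1) = cseq R (n + 1)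
      apply cseq_congr
      intro j hj
      simp [extend, hj]
  rw [e]
  refine ⟨fun n => copMove_step _ _, ?_⟩
  by_cases hc : Caught (cseq R) R
  · exact Or.inl hc
  · exact Or.inr fun x => finite_visits hR hc x

end Pool.Agent.N272.DLR
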