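import Mathlib

/-! Definitions: the game of cops and robber with one cop on infinite graphs. -/

set_option autoImplicit false

namespace Pool.Agent.N272.DLR

variable {V : Type}

/-- One move of a player: he stays where he is or moves to an adjacent vertex. -/
def Step (G : SimpleGraph V) (x y : V) : Prop := x = y ∨ G.Adj x y

/-- A sequence of legal moves. -/
def IsPlay (G : SimpleGraph V) (x : ℕ → V) : Prop := ∀ n, Step G (x n) (x (n + 1))

/-- `C n` and `R n` are the vertices of the cop and of the robber after their `n`-th moves (for
`n = 0`, their starting vertices); the cop moves first. The robber is caught if the cop ever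
occupies his vertex. -/
def Caught (C R : ℕ → V) : Prop := ∃ n, C n = R n ∨ C (n + 1) = R n

/-- The play of the cop given by his starting vertex `c₀` and a strategy `f`, which tells the cop
where to go in his move number `n + 1`, as a function of the vertices `R 0, …, R n` of the
robber. -/
def copPlay (c₀ : V) (f : (n : ℕ) → (Fin (n + 1) → V) → V) (R : ℕ → V) : ℕ → V
  | 0 => c₀
  | n + 1 => f n fun i => R i

/-- The cop has a strategy that guarantees that he catches the robber, or every vertex is occupied
by the robber at only finitely many times. -/
def WeakCopWin (G : SimpleGraph V) : Prop :=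
  ∃ (c₀ : V) (f : (n : ℕ) → (Fin (n + 1) → V) → V), ∀ R : ℕ → V, IsPlay G R →
    IsPlay G (copPlay c₀ f R) ∧
      (Caught (copPlay c₀ f R) R ∨ ∀ x : V, {n | R n = x}.Finite)

/-- For every starting vertex `c` of the cop there is a starting vertex `v` of the robber such that
for all positive `m` and `n` the robber has a strategy `g`, where `g k` tells him where to be at
time `k` as a function of the vertices `C 0, …, C k` of the cop, such that for every play `C` of
the cop starting at `c`: the play of the robber starts at `v` and is legal, the robber is never
caught, and all his positions lie in a finite set or he is at `v` at two times `t ≥ m` and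
`s ≥ t + n`. -/
def DoubleLongReturn (G : SimpleGraph V) : Prop :=
  ∀ c : V, ∃ v : V, ∀ m n : ℕ, 1 ≤ m → 1 ≤ n →
    ∃ g : (k : ℕ) → (Fin (k + 1) → V) → V, ∀ C : ℕ → V, IsPlay G C → C 0 = c →
      (g 0 fun i => C i) = v ∧ IsPlay G (fun k => g k fun i => C i) ∧
        ¬ Caught C (fun k => g k fun i => C i) ∧
          ((∃ F : Finset V, ∀ k, (g k fun i => C i) ∈ F) ∨
            ∃ t s : ℕ, m ≤ t ∧ t + n ≤ s ∧ (g t fun i => C i) = v ∧ (g s fun i => C i) = v)

end Pool.Agent.N272.DLR
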