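import Pool.Agent.N272.DLR.Defs

/-! The graph. -/

set_option autoImplicit false

namespace Pool.Agent.N272.DLR

/-- The vertices: the chain `c k`, the tops `t k N`, and the paths `p k 0 N, …, p k N 0`. -/
inductive W : Type
  | c (k : ℕ) : W
  | t (k N : ℕ) : W
  | p (k i j : ℕ) : W
  deriving DecidableEq

/-- the edges, in one direction -/
def E : W → W → Prop
  | .c k, .c l => l = k + 1
  | .c l, .p k i j => l = k ∨ ((i = 0 ∨ j = 0) ∧ (l = k + 1 ∨ l = k + 2))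
  | .t k N, .p l i j => k = l ∧ i + j = N
  | .p k i j, .p l i' j' => k = l ∧ i' = i + 1 ∧ j = j' + 1
  | _, _ => False

/-- The graph. -/
def G : SimpleGraph W where
  Adj x y := E x y ∨ E y x
  symm := ⟨fun _ _ h => h.symm⟩
  loopless := ⟨fun x h => by
    rcases x with k | ⟨k, N⟩ | ⟨k, i, j⟩ <;> simp [E] at h⟩

theorem adj_cc (k l : ℕ) : G.Adj (.c k) (.c l) ↔ l = k + 1 ∨ k = l + 1 := Iff.rfl

theorem adj_cp (l k i j : ℕ) : G.Adj (.c l) (.p k i j) ↔
    l = k ∨ ((i = 0 ∨ j = 0) ∧ (l = k + 1 ∨ l = k + 2)) := by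
  simp [G, E]

theorem adj_pc (l k i j : ℕ) : G.Adj (.p k i j) (.c l) ↔
    l = k ∨ ((i = 0 ∨ j = 0) ∧ (l = k + 1 ∨ l = k + 2)) := by
  simp [G, E]

theorem adj_tp (k N l i j : ℕ) : G.Adj (.t k N) (.p l i j) ↔ k = l ∧ i + j = N := by
  simp [G, E]

theorem adj_pt (k N l i j : ℕ) : G.Adj (.p l i j) (.t k N) ↔ k = l ∧ i + j = N := by
  simp [G, E]

theorem adj_pp (k i j l i' j' : ℕ) : G.Adj (.p k i j) (.p l i' j') ↔
    k = l ∧ ((i' = i + 1 ∧ j = j' + 1) ∨ (i = i' + 1 ∧ j' = j + 1)) := by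
  simp only [G, E]
  omega

theorem adj_ct (l k N : ℕ) : ¬ G.Adj (.c l) (.t k N) := by simp [G, E]

theorem adj_tc (l k N : ℕ) : ¬ G.Adj (.t k N) (.c l) := by simp [G, E]

theorem adj_tt (l M k N : ℕ) : ¬ G.Adj (.t l M) (.t k N) := by simp [G, E]

theorem connected : G.Connected := by
  have h1 : ∀ k, G.Reachable (.c 0) (.c k) := by
    intro k
    induction k with
    | zero => exact SimpleGraph.Reachable.refl _
    | succ k ih => exact ih.trans (SimpleGraph.Adj.reachable ((adj_cc _ _).mpr (Or.inl rfl)))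
  have h2 : ∀ k i j, G.Reachable (.c 0) (.p k i j) := fun k i j =>
    (h1 k).trans (SimpleGraph.Adj.reachable ((adj_cp _ _ _ _).mpr (Or.inl rfl)))
  have h3 : ∀ x, G.Reachable (.c 0) x := by
    intro x
    rcases x with k | ⟨k, N⟩ | ⟨k, i, j⟩
    · exact h1 k
    · exact (h2 k 0 N).trans (SimpleGraph.Adj.reachable ((adj_pt _ _ _ _ _).mpr ⟨rfl, by simp⟩))
    · exact h2 k i j
  have : Nonempty W := ⟨.c 0⟩
  exact ⟨fun x y => (h3 x).symm.trans (h3 y)⟩

end Pool.Agent.N272.DLR
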