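import Pool.Agent.N272.DLR.Cop

/-! The robber has the double long return property. -/

set_option autoImplicit false

namespace Pool.Agent.N272.DLR

/-- the level of a vertex -/
def lev : W → ℕ
  | .c k => k
  | .t k _ => k
  | .p k i j => if i = 0 ∨ j = 0 then k + 1 else k

theorem lev_c (k : ℕ) : lev (.c k) = k := rfl

theorem lev_t (k N : ℕ) : lev (.t k N) = k := rfl

theorem lev_p (k i j : ℕ) : lev (.p k i j) = if i = 0 ∨ j = 0 then k + 1 else k := rfl

theorem lev_step {x y : W} (h : Step G x y) : lev y ≤ lev x + 1 := by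
  rcases h with rfl | h
  · omega
  rcases x with a | ⟨a, N⟩ | ⟨a, i, j⟩ <;> rcases y with b | ⟨b, M⟩ | ⟨b, i', j'⟩ <;>
    simp only [lev, adj_cc, adj_cp, adj_pc, adj_tp, adj_pt, adj_pp, adj_ct, adj_tc, adj_tt] at h ⊢ <;>
    (try split_ifs) <;> omega

/-- the path with its top -/
def InD (k N : ℕ) : W → Prop
  | .c _ => False
  | .t l M => l = k ∧ M = N
  | .p l i j => l = k ∧ i + j = N

/-- the robber's move on the path with its top, and whether he leaves it -/
def dm (k N d : ℕ) (r : W) : W → W × Bool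
  | .c _ => (.t k N, false)
  | .t l M => if l = k ∧ M = N then (.c k, false) else (.t k N, false)
  | .p l i j =>
    if l = k ∧ i + j = N then
      if r = .p k 0 N then (if i ≤ 2 then (.c (k + d), true) else (r, false))
      else if r = .p k N 0 then (if j ≤ 2 then (.c (k + d), true) else (r, false))
      else if j ≤ i then (.p k 0 N, false) else (.p k N 0, false)
    else (.t k N, false)

/-- the possible positions of robber and cop -/
def DI (k N τ : ℕ) (r c : W) : Prop :=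
  (r = .t k N ∧ ¬ InD k N c) ∨ (r = .c k ∧ c = .t k N) ∨
    (r = .p k 0 N ∧ ∃ i j, c = .p k i j ∧ i + j = N ∧ 3 ≤ i ∧ N ≤ 2 * (i + τ)) ∨
    (r = .p k N 0 ∧ ∃ i j, c = .p k i j ∧ i + j = N ∧ 3 ≤ j ∧ N ≤ 2 * (j + τ)) ∨
    (r = .p k 0 N ∧ ¬ InD k N c ∧ c ≠ .c k ∧ c ≠ .c (k + 1) ∧ c ≠ .c (k + 2))

/-- the position of the cop when the robber leaves -/
def ExitC (k N : ℕ) (c : W) : Prop := ∃ i j, c = .p k i j ∧ i + j = N ∧ 2 ≤ i ∧ 2 ≤ j

theorem DI.mem {k N τ : ℕ} {r c : W} (h : DI k N τ r c) :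
    r = .t k N ∨ r = .c k ∨ r = .p k 0 N ∨ r = .p k N 0 := by
  rcases h with h | h | h | h | h
  · exact Or.inl h.1
  · exact Or.inr (Or.inl h.1)
  · exact Or.inr (Or.inr (Or.inl h.1))
  · exact Or.inr (Or.inr (Or.inr h.1))
  · exact Or.inr (Or.inr (Or.inl h.1))

/-- The outcome of one round on the path with its top. -/
def Out (k N d τ : ℕ) (r c' : W) (q : W × Bool) : Prop :=
  c' ≠ r ∧ c' ≠ q.1 ∧ Step G r q.1 ∧ ((q.2 = false ∧ DI k N (τ + 1) q.1 c') ∨
    (q.2 = true ∧ q.1 = .c (k + d) ∧ ExitC k N c' ∧ N ≤ 2 * (τ + 1) + 4))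

theorem out_far {k N d τ : ℕ} {r : W} {i j : ℕ} (hN : 6 ≤ N) (hij : i + j = N)
    (hr : r ≠ .p k 0 N) (hr' : r ≠ .p k N 0) (hr'' : r = .t k N ∨ r = .c k) :
    Out k N d τ r (.p k i j) (dm k N d r (.p k i j)) := by
  simp only [dm, hij, and_self, if_true, if_neg hr, if_neg hr']
  split_ifs with h
  · refine ⟨?_, ?_, ?_, Or.inl ⟨rfl, ?_⟩⟩
    · rcases hr'' with rfl | rfl <;> simp
    · simp only [ne_eq, W.p.injEq]
      omega
    · rcases hr'' with rfl | rfl
      · exact Or.inr ((adj_tp _ _ _ _ _).mpr ⟨rfl, by omega⟩)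
      · exact Or.inr ((adj_cp _ _ _ _).mpr (Or.inl rfl))
    · exact Or.inr (Or.inr (Or.inl ⟨rfl, i, j, rfl, hij, by omega, by omega⟩))
  · refine ⟨?_, ?_, ?_, Or.inl ⟨rfl, ?_⟩⟩
    · rcases hr'' with rfl | rfl <;> simp
    · simp only [ne_eq, W.p.injEq]
      omega
    · rcases hr'' with rfl | rfl
      · exact Or.inr ((adj_tp _ _ _ _ _).mpr ⟨rfl, by omega⟩)
      · exact Or.inr ((adj_cp _ _ _ _).mpr (Or.inl rfl))
    · exact Or.inr (Or.inr (Or.inr (Or.inl ⟨rfl, i, j, rfl, hij, by omega, by omega⟩)))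

theorem out_top {k N d τ : ℕ} {r c' : W} (hc : ¬ InD k N c') (hr : r = .t k N ∨ r = .p k 0 N ∨
    r = .p k N 0) (hcr : c' ≠ r) : Out k N d τ r c' (dm k N d r c') := by
  have e : dm k N d r c' = (.t k N, false) := by
    rcases c' with b | ⟨b, M⟩ | ⟨b, i', j'⟩
    · rfl
    · simp only [dm]
      exact if_neg hc
    · simp only [dm]
      exact if_neg hc
  rw [e]
  refine ⟨hcr, ?_, ?_, Or.inl ⟨rfl, Or.inl ⟨rfl, hc⟩⟩⟩
  · rintro rfl
    exact hc ⟨rfl, rfl⟩
  · rcases hr with rfl | rfl | rfl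
    · exact Or.inl rfl
    · exact Or.inr ((adj_pt _ _ _ _ _).mpr ⟨rfl, by omega⟩)
    · exact Or.inr ((adj_pt _ _ _ _ _).mpr ⟨rfl, by omega⟩)

theorem out_root {k N d τ : ℕ} {r : W} (hr : r = .c k ∨ r = .p k 0 N ∨ r = .p k N 0) :
    Out k N d τ r (.t k N) (dm k N d r (.t k N)) := by
  have e : dm k N d r (.t k N) = (.c k, false) := by
    simp [dm]
  rw [e]
  refine ⟨?_, by simp, ?_, Or.inl ⟨rfl, Or.inr (Or.inl ⟨rfl, rfl⟩)⟩⟩
  · rcases hr with rfl | rfl | rfl <;> simp
  · rcases hr with rfl | rfl | rfl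
    · exact Or.inl rfl
    · exact Or.inr ((adj_pc _ _ _ _).mpr (Or.inl rfl))
    · exact Or.inr ((adj_pc _ _ _ _).mpr (Or.inl rfl))

theorem disc_step {k N d τ : ℕ} {r c c' : W} (hN : 6 ≤ N) (hd : d = 1 ∨ d = 2)
    (h : DI k N τ r c) (hs : Step G c c') : Out k N d τ r c' (dm k N d r c') := by
  rcases h with ⟨rfl, h⟩ | ⟨rfl, rfl⟩ | ⟨rfl, i, j, rfl, h1, h2, h3⟩ | ⟨rfl, i, j, rfl, h1, h2, h3⟩ |
    ⟨rfl, h, h1, h2, h3⟩
  · by_cases hc : InD k N c'
    · rcases c' with b | ⟨b, M⟩ | ⟨b, i', j'⟩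
      · exact hc.elim
      · exfalso
        obtain ⟨rfl, rfl⟩ := hc
        rcases c with a | ⟨a, L⟩ | ⟨a, i, j⟩ <;> rcases hs with hs | hs <;>
          simp only [InD, reduceCtorEq, W.t.injEq, adj_ct, adj_tt, adj_pt] at h hs <;> omega
      · obtain ⟨rfl, hc⟩ := hc
        exact out_far hN hc (by simp) (by simp) (Or.inl rfl)
    · refine out_top hc (Or.inl rfl) ?_
      rintro rfl
      exact hc ⟨rfl, rfl⟩
  · rcases hs with rfl | hs
    · exact out_root (Or.inl rfl)
    · rcases c' with b | ⟨b, M⟩ | ⟨b, i', j'⟩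
      · exact (adj_tc _ _ _ hs).elim
      · exact (adj_tt _ _ _ _ hs).elim
      · obtain ⟨rfl, hc⟩ := (adj_tp _ _ _ _ _).mp hs
        exact out_far hN hc (by simp) (by simp) (Or.inr rfl)
  · rcases c' with b | ⟨b, M⟩ | ⟨b, i', j'⟩
    · exact out_top (by simp [InD]) (Or.inr (Or.inl rfl)) (by simp)
    · have hM : b = k ∧ M = N := by
        rcases hs with hs | hs
        · simp at hs
        · simp only [adj_pt] at hs
          omega
      obtain ⟨rfl, rfl⟩ := hM
      exact out_root (Or.inr (Or.inl rfl))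
    · have hp : b = k ∧ i' + j' = N ∧ i ≤ i' + 1 := by
        rcases hs with hs | hs <;> simp only [W.p.injEq, adj_pp] at hs <;> omega
      obtain ⟨rfl, hp1, hp2⟩ := hp
      simp only [dm, hp1, and_self, if_true]
      split_ifs with h4
      · refine ⟨?_, by simp, ?_, Or.inr ⟨rfl, rfl, ⟨i', j', rfl, hp1, by omega, by omega⟩,
          by omega⟩⟩
        · simp only [ne_eq, W.p.injEq]
          omega
        · exact Or.inr ((adj_pc _ _ _ _).mpr (by omega))
      · refine ⟨?_, ?_, Or.inl rfl, Or.inl ⟨rfl, Or.inr (Or.inr (Or.inl ⟨rfl, i', j', rfl, hp1,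
          by omega, by omega⟩))⟩⟩
        · simp only [ne_eq, W.p.injEq]
          omega
        · simp only [ne_eq, W.p.injEq]
          omega
  · have hne : W.p k N 0 ≠ .p k 0 N := by
      simp only [ne_eq, W.p.injEq]
      omega
    rcases c' with b | ⟨b, M⟩ | ⟨b, i', j'⟩
    · exact out_top (by simp [InD]) (Or.inr (Or.inr rfl)) (by simp)
    · have hM : b = k ∧ M = N := by
        rcases hs with hs | hs
        · simp at hs
        · simp only [adj_pt] at hs
          omega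
      obtain ⟨rfl, rfl⟩ := hM
      exact out_root (Or.inr (Or.inr rfl))
    · have hp : b = k ∧ i' + j' = N ∧ j ≤ j' + 1 := by
        rcases hs with hs | hs <;> simp only [W.p.injEq, adj_pp] at hs <;> omega
      obtain ⟨rfl, hp1, hp2⟩ := hp
      simp only [dm, hp1, and_self, if_true, if_neg hne]
      split_ifs with h4
      · refine ⟨?_, by simp, ?_, Or.inr ⟨rfl, rfl, ⟨i', j', rfl, hp1, by omega, by omega⟩,
          by omega⟩⟩
        · simp only [ne_eq, W.p.injEq]
          omega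
        · exact Or.inr ((adj_pc _ _ _ _).mpr (by omega))
      · refine ⟨?_, ?_, Or.inl rfl, Or.inl ⟨rfl, Or.inr (Or.inr (Or.inr (Or.inl ⟨rfl, i', j', rfl,
          hp1, by omega, by omega⟩)))⟩⟩
        · simp only [ne_eq, W.p.injEq]
          omega
        · simp only [ne_eq, W.p.injEq]
          omega
  · have hc : ¬ InD k N c' := by
      intro hc
      rcases c' with b | ⟨b, M⟩ | ⟨b, i', j'⟩ <;> rcases c with a | ⟨a, L⟩ | ⟨a, i, j⟩ <;>
        rcases hs with hs | hs <;>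
        simp only [InD, reduceCtorEq, W.t.injEq, W.p.injEq, W.c.injEq, adj_ct, adj_tt, adj_pt,
          adj_cp, adj_tp, adj_pp, ne_eq] at h h1 h2 h3 hc hs <;> omega
    refine out_top hc (Or.inr (Or.inl rfl)) ?_
    rintro rfl
    exact hc ⟨rfl, by omega⟩

/-- one step to the right along the chain -/
def right : W → W
  | .c l => .c (l + 1)
  | x => x

/-- The robber's phases: `0` wait, `1` first excursion, `2` first return, `3` second excursion,
`4` second return, `5` run away. -/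
def nxt (J N : ℕ) (s : ℕ × W) (c' : W) : ℕ × W :=
  match s.1 with
  | 0 => if lev c' + 2 ≤ J then (0, s.2) else (1, .p J 0 N)
  | 1 => (if (dm J N 2 s.2 c').2 then 2 else 1, (dm J N 2 s.2 c').1)
  | 2 => (3, .p (J + 1) 0 N)
  | 3 => (if (dm (J + 1) N 1 s.2 c').2 then 4 else 3, (dm (J + 1) N 1 s.2 c').1)
  | _ => (5, right s.2)

/-- phase and position of the robber -/
def rob (J N : ℕ) (C : ℕ → W) : ℕ → ℕ × W
  | 0 => (0, .c (J + 2))
  | k + 1 => nxt J N (rob J N C k) (C (k + 1))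

theorem rob_congr (J N : ℕ) (C C' : ℕ → W) (k : ℕ) (h : ∀ j ≤ k, C j = C' j) :
    rob J N C k = rob J N C' k := by
  induction k with
  | zero => rfl
  | succ k ih =>
    rw [rob, rob, ih fun j hj => h j (by omega), h (k + 1) le_rfl]

/-- the invariant -/
def Inv (J N : ℕ) (C : ℕ → W) (k : ℕ) : Prop :=
  ((rob J N C k).1 = 0 ∧ (rob J N C k).2 = .c (J + 2) ∧ lev (C k) + 2 ≤ J) ∨
  ((rob J N C k).1 = 1 ∧ DI J N k (rob J N C k).2 (C k)) ∨
  ((rob J N C k).1 = 2 ∧ (rob J N C k).2 = .c (J + 2) ∧ ExitC J N (C k) ∧ N ≤ 2 * k + 4) ∨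
  ((rob J N C k).1 = 3 ∧ ∃ T τ, k = T + τ ∧ (rob J N C T).2 = .c (J + 2) ∧ N ≤ 2 * T + 4 ∧
    DI (J + 1) N τ (rob J N C k).2 (C k)) ∨
  ((rob J N C k).1 = 4 ∧ (rob J N C k).2 = .c (J + 2) ∧ ExitC (J + 1) N (C k) ∧
    ∃ T τ, k = T + τ ∧ (rob J N C T).2 = .c (J + 2) ∧ N ≤ 2 * T + 4 ∧ N ≤ 2 * τ + 4) ∨
  ((rob J N C k).1 = 5 ∧ (∃ l, (rob J N C k).2 = .c l ∧ lev (C k) + 2 ≤ l) ∧
    ∃ T τ, (rob J N C T).2 = .c (J + 2) ∧ (rob J N C (T + τ)).2 = .c (J + 2) ∧ N ≤ 2 * T + 4 ∧
      N ≤ 2 * τ + 4)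

theorem exit_step {k N : ℕ} {c c' : W} (h : ExitC k N c) (hs : Step G c c') :
    c' = .c k ∨ c' = .t k N ∨ ∃ i j, c' = .p k i j ∧ 1 ≤ i ∧ 1 ≤ j := by
  obtain ⟨i, j, rfl, h1, h2, h3⟩ := h
  rcases hs with rfl | hs
  · exact Or.inr (Or.inr ⟨i, j, rfl, by omega, by omega⟩)
  · rcases c' with b | ⟨b, M⟩ | ⟨b, i', j'⟩
    · left
      simp only [adj_pc] at hs
      rw [W.c.injEq]
      omega
    · right; left
      simp only [adj_pt] at hs
      rw [W.t.injEq]
      omega
    · right; right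
      simp only [adj_pp] at hs
      refine ⟨i', j', ?_, by omega, by omega⟩
      rw [W.p.injEq]
      omega

theorem inv_step {J N : ℕ} (hN : 6 ≤ N) {C : ℕ → W} (hC : IsPlay G C) (k : ℕ) (h : Inv J N C k) :
    C (k + 1) ≠ (rob J N C k).2 ∧ C (k + 1) ≠ (rob J N C (k + 1)).2 ∧
      Step G (rob J N C k).2 (rob J N C (k + 1)).2 ∧ Inv J N C (k + 1) := by
  have hs := hC k
  have hl := lev_step hs
  have e0 : rob J N C (k + 1) = nxt J N (rob J N C k) (C (k + 1)) := rfl
  rcases h with ⟨h0, h1, h2⟩ | ⟨h0, h1⟩ | ⟨h0, h1, h2, h3⟩ | ⟨h0, T, τ, h1, h2, h3, h4⟩ |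
    ⟨h0, h1, h2, T, τ, h3, h4, h5, h6⟩ | ⟨h0, ⟨l, h1, h2⟩, T, τ, h3, h4, h5, h6⟩
  · -- waiting
    have hne : C (k + 1) ≠ (rob J N C k).2 := by
      rw [h1]
      intro h
      rw [h] at hl
      simp only [lev_c] at hl
      omega
    by_cases hj : lev (C (k + 1)) + 2 ≤ J
    · have e1 : rob J N C (k + 1) = (0, .c (J + 2)) := by
        rw [e0]
        unfold nxt
        rw [h0]
        simp only [if_pos hj, h1]
      refine ⟨hne, ?_, ?_, Or.inl ⟨by rw [e1], by rw [e1], hj⟩⟩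
      · rw [e1, ← h1]
        exact hne
      · rw [e1, h1]
        exact Or.inl rfl
    · have e1 : rob J N C (k + 1) = (1, .p J 0 N) := by
        rw [e0]
        unfold nxt
        rw [h0]
        simp only [if_neg hj]
      refine ⟨hne, ?_, ?_, Or.inr (Or.inl ⟨by rw [e1], ?_⟩)⟩
      · rw [e1]
        intro h
        rw [h] at hl
        simp only [lev_p, true_or, if_true] at hl
        omega
      · rw [e1, h1]
        exact Or.inr ((adj_cp _ _ _ _).mpr (by omega))
      · rw [e1]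
        refine Or.inr (Or.inr (Or.inr (Or.inr ⟨rfl, ?_, ?_, ?_, ?_⟩)))
        · intro h
          rcases hx : C (k + 1) with b | ⟨b, M⟩ | ⟨b, i', j'⟩
          · rw [hx] at h
            exact h
          · rw [hx] at h hl
            simp only [InD, lev_t, lev_p] at h hl
            omega
          · rw [hx] at h hl
            simp only [InD, lev_t, lev_p] at h hl
            split_ifs at hl <;> omega
        · intro h
          rw [h] at hl
          simp only [lev_c] at hl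
          omega
        · intro h
          rw [h] at hl
          simp only [lev_c] at hl
          omega
        · intro h
          rw [h] at hl
          simp only [lev_c] at hl
          omega
  · -- first excursion
    obtain ⟨a1, a2, a3, a4⟩ := disc_step (d := 2) hN (Or.inr rfl) h1 hs
    have e1 : rob J N C (k + 1) = (if (dm J N 2 (rob J N C k).2 (C (k + 1))).2 then 2 else 1,
        (dm J N 2 (rob J N C k).2 (C (k + 1))).1) := by
      rw [e0]
      unfold nxt
      rw [h0]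
      rfl
    refine ⟨a1, by rw [e1]; exact a2, by rw [e1]; exact a3, ?_⟩
    rcases a4 with ⟨b1, b2⟩ | ⟨b1, b2, b3, b4⟩
    · refine Or.inr (Or.inl ⟨by rw [e1, b1]; rfl, ?_⟩)
      rw [e1]
      exact b2
    · refine Or.inr (Or.inr (Or.inl ⟨by rw [e1, b1]; rfl, ?_, b3, b4⟩))
      rw [e1]
      exact b2
  · -- first return
    have e1 : rob J N C (k + 1) = (3, .p (J + 1) 0 N) := by
      rw [e0]
      unfold nxt
      rw [h0]
      rfl
    have h4 := exit_step h2 hs
    refine ⟨?_, ?_, ?_, Or.inr (Or.inr (Or.inr (Or.inl ⟨by rw [e1], k, 1, rfl, h1, h3, ?_⟩)))⟩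
    · rw [h1]
      rcases h4 with h | h | ⟨i, j, h, -, -⟩ <;> rw [h] <;> simp
    · rw [e1]
      rcases h4 with h | h | ⟨i, j, h, -, -⟩ <;> rw [h] <;> simp
    · rw [e1, h1]
      exact Or.inr ((adj_cp _ _ _ _).mpr (by omega))
    · rw [e1]
      refine Or.inr (Or.inr (Or.inr (Or.inr ⟨rfl, ?_, ?_, ?_, ?_⟩))) <;>
        rcases h4 with h | h | ⟨i, j, h, -, -⟩ <;> rw [h] <;> simp [InD] <;> omega
  · -- second excursion
    obtain ⟨a1, a2, a3, a4⟩ := disc_step (d := 1) hN (Or.inl rfl) h4 hs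
    have e1 : rob J N C (k + 1) = (if (dm (J + 1) N 1 (rob J N C k).2 (C (k + 1))).2 then 4 else 3,
        (dm (J + 1) N 1 (rob J N C k).2 (C (k + 1))).1) := by
      rw [e0]
      unfold nxt
      rw [h0]
      rfl
    refine ⟨a1, by rw [e1]; exact a2, by rw [e1]; exact a3, ?_⟩
    rcases a4 with ⟨b1, b2⟩ | ⟨b1, b2, b3, b4⟩
    · refine Or.inr (Or.inr (Or.inr (Or.inl ⟨by rw [e1, b1]; rfl, T, τ + 1, by omega, h2, h3, ?_⟩)))
      rw [e1]
      exact b2
    · refine Or.inr (Or.inr (Or.inr (Or.inr (Or.inl ⟨by rw [e1, b1]; rfl, ?_, b3, T, τ + 1,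
        by omega, h2, h3, b4⟩))))
      rw [e1]
      exact b2
  · -- second return
    have e1 : rob J N C (k + 1) = (5, .c (J + 3)) := by
      rw [e0]
      unfold nxt
      rw [h0, h1]
      rfl
    have h7 := exit_step h2 hs
    have hlev : lev (C (k + 1)) = J + 1 := by
      rcases h7 with h | h | ⟨i, j, h, hi, hj⟩
      · rw [h]; rfl
      · rw [h]; rfl
      · rw [h]
        rw [lev_p, if_neg (by omega)]
    refine ⟨?_, ?_, ?_, Or.inr (Or.inr (Or.inr (Or.inr (Or.inr ⟨by rw [e1], ⟨J + 3, by rw [e1],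
      by omega⟩, T, τ, h4, ?_, h5, h6⟩))))⟩
    · rw [h1]
      intro h
      rw [h] at hlev
      simp only [lev_c] at hlev
      omega
    · rw [e1]
      intro h
      rw [h] at hlev
      simp only [lev_c] at hlev
      omega
    · rw [e1, h1]
      exact Or.inr ((adj_cc _ _).mpr (Or.inl rfl))
    · rw [← h3]
      exact h1
  · -- running away
    have e1 : rob J N C (k + 1) = (5, .c (l + 1)) := by
      rw [e0]
      unfold nxt
      rw [h0, h1]
      rfl
    refine ⟨?_, ?_, ?_, Or.inr (Or.inr (Or.inr (Or.inr (Or.inr ⟨by rw [e1], ⟨l + 1, by rw [e1],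
      by omega⟩, T, τ, h3, h4, h5, h6⟩))))⟩
    · rw [h1]
      intro h
      rw [h] at hl
      simp only [lev_c] at hl
      omega
    · rw [e1]
      intro h
      rw [h] at hl
      simp only [lev_c] at hl
      omega
    · rw [e1, h1]
      exact Or.inr ((adj_cc _ _).mpr (Or.inl rfl))

theorem inv_all {J N : ℕ} (hN : 6 ≤ N) {C : ℕ → W} (hC : IsPlay G C) (h0 : lev (C 0) + 2 ≤ J)
    (k : ℕ) : Inv J N C k := by
  induction k with
  | zero => exact Or.inl ⟨rfl, rfl, h0⟩
  | succ k ih => exact (inv_step hN hC k ih).2.2.2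

theorem doubleLongReturn : DoubleLongReturn G := by
  intro c
  refine ⟨.c (lev c + 2 + 2), fun m n _ _ => ?_⟩
  set J := lev c + 2 with hJ
  set N := 2 * (m + n) + 6 with hN
  refine ⟨fun k h => (rob J N (extend h) k).2, fun C hC hC0 => ?_⟩
  have e : ∀ k, (rob J N (extend fun i : Fin (k + 1) => C i) k).2 = (rob J N C k).2 := by
    intro k
    rw [rob_congr J N _ C k fun j hj => by simp [extend, Nat.lt_succ_of_le hj]]
  simp only [e]
  have hN6 : 6 ≤ N := by omega
  have h0 : lev (C 0) + 2 ≤ J := by rw [hC0]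
  have hinv := inv_all hN6 hC h0
  refine ⟨rfl, fun k => (inv_step hN6 hC k (hinv k)).2.2.1, ?_, ?_⟩
  · rintro ⟨k, hk | hk⟩
    · rcases k with _ | k
      · rw [hk] at h0
        simp only [rob, lev_c] at h0
        omega
      · exact (inv_step hN6 hC k (hinv k)).2.1 hk
    · exact (inv_step hN6 hC k (hinv k)).1 hk
  · by_cases h5 : ∃ k, (rob J N C k).1 = 5
    · right
      obtain ⟨k, hk⟩ := h5
      rcases hinv k with h | h | h | h | h | ⟨-, -, T, τ, h3, h4, h5, h6⟩
      · exfalso; have := h.1; omega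
      · exfalso; have := h.1; omega
      · exfalso; have := h.1; omega
      · exfalso; have := h.1; omega
      · exfalso; have := h.1; omega
      · exact ⟨T, T + τ, by omega, by omega, h3, h4⟩
    · left
      refine ⟨{.c (J + 2), .t J N, .c J, .p J 0 N, .p J N 0, .t (J + 1) N, .c (J + 1),
        .p (J + 1) 0 N, .p (J + 1) N 0}, fun k => ?_⟩
      simp only [Finset.mem_insert, Finset.mem_singleton]
      rcases hinv k with h | h | h | ⟨-, T, τ, -, -, -, h⟩ | h | h
      · exact Or.inl h.2.1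
      · have := h.2.mem
        tauto
      · exact Or.inl h.2.1
      · have := h.mem
        tauto
      · exact Or.inl h.2.1
      · exact absurd ⟨k, h.1⟩ h5

end Pool.Agent.N272.DLR
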